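import Pool.Agent.PHF.Ctr
import Pool.Agent.PHF.Grw
import Pool.Agent.PHF.Grp

set_option autoImplicit false

open MeasureTheory Pointwise

namespace Pool.Agent.Results.MP_e6f660_al.NoLinearGrowth

/-- The word length of `x` with respect to `K`: the least `n` with `x ∈ K ^ n`. -/
noncomputable def wlen {G : Type} [Group G] (K : Set G) (x : G) : ℕ := sInf {n | x ∈ K ^ n}

/-- `K` is a compact symmetric generating set. -/
structure IsGenSet {G : Type} [Group G] [TopologicalSpace G] (K : Set G) : Prop where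
  compact : IsCompact K
  symm : K⁻¹ = K
  gen : ∀ x : G, ∃ n : ℕ, x ∈ K ^ n

/-- The powers of `K` have polynomially bounded `m`-measure. -/
def PolynomialGrowth {G : Type} [Group G] [MeasurableSpace G] (K : Set G) (m : Measure G) : Prop :=
  ∃ C k : ℝ, 0 < C ∧ 0 < k ∧ ∀ n : ℕ, 1 ≤ n → m (K ^ n) ≤ ENNReal.ofReal (C * (n : ℝ) ^ k)

/-- Courteous measures: adapted, symmetric, finite third moment. -/
structure Courteous {G : Type} [Group G] [TopologicalSpace G] [MeasurableSpace G] (K : Set G)
    (μ : Measure G) : Prop where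
  adapted : ∀ H : Subgroup G, IsClosed (H : Set G) → H ≠ ⊤ → μ (H : Set G) < 1
  symm : ∀ A : Set G, MeasurableSet A → μ A = μ A⁻¹
  third : ∫⁻ s, (wlen K s : ENNReal) ^ 3 ∂μ < ⊤

/-- Exponential tail. -/
def ExpTail {G : Type} [Group G] [MeasurableSpace G] (K : Set G) (μ : Measure G) : Prop :=
  ∃ ε : ℝ, 0 < ε ∧ ∫⁻ s, ENNReal.ofReal (Real.exp (ε * wlen K s)) ∂μ < ⊤

/-- Measurable harmonic functions. -/
def Harmonic {G : Type} [Group G] [MeasurableSpace G] (μ : Measure G) (f : G → ℝ) : Prop :=
  Measurable f ∧ ∀ x, f x = ∫ s, f (x * s) ∂μ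

/-- Linear growth. -/
def LinearGrowth {G : Type} [Group G] (K : Set G) (f : G → ℝ) : Prop :=
  ∃ c : ℝ, 0 < c ∧ ∀ x, |f x| ≤ c * (1 + wlen K x)

open Pool.Agent.PHF

section weight

variable {G : Type} [Group G] (S : SGp G)

/-- The weights of the measure. -/
noncomputable def wt : GA G := (1 / 2 : ℝ) • (S.mA + S.mV)

theorem ev_wt (f : G → ℝ) : ev (wt S) f = (ev S.mA f + ev S.mV f) / 2 := by
  unfold wt
  rw [ev_smul, ev_add]; ring

theorem law_wt : IsLaw (wt S) := by
  refine ⟨((law_mA S).nn.add (law_mV S).nn).smul (by norm_num), ?_⟩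
  rw [ev_wt, (law_mA S).mass, (law_mV S).mass]; norm_num

/-- The measure. -/
noncomputable def msr [MeasurableSpace G] : Measure G :=
  ∑ z ∈ (wt S).coeff.support, ENNReal.ofReal ((wt S).coeff z) • Measure.dirac z

theorem lintegral_msr [MeasurableSpace G] [MeasurableSingletonClass G] (g : G → ENNReal) :
    ∫⁻ s, g s ∂(msr S) = ∑ z ∈ (wt S).coeff.support, ENNReal.ofReal ((wt S).coeff z) * g z := by
  unfold msr
  rw [lintegral_finsetSum_measure]
  refine Finset.sum_congr rfl fun z _ => ?_
  rw [lintegral_smul_measure, lintegral_dirac]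
  rfl

theorem integrable_msr [MeasurableSpace G] [MeasurableSingletonClass G] (f : G → ℝ)
    (hf : Measurable f) : Integrable f (msr S) := by
  unfold msr
  rw [integrable_finsetSum_measure]
  intro z _
  refine Integrable.smul_measure ?_ ENNReal.ofReal_ne_top
  exact integrable_dirac' hf.stronglyMeasurable (by simp)

theorem integral_msr [MeasurableSpace G] [MeasurableSingletonClass G] (f : G → ℝ)
    (hf : Measurable f) : ∫ s, f s ∂(msr S) = ev (wt S) f := by
  unfold msr
  rw [integral_finsetSum_measure]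
  · unfold ev
    refine Finset.sum_congr rfl fun z _ => ?_
    rw [integral_smul_measure, integral_dirac, ENNReal.toReal_ofReal ((law_wt S).nn z)]
    rfl
  · intro z _
    refine Integrable.smul_measure ?_ ENNReal.ofReal_ne_top
    exact integrable_dirac' hf.stronglyMeasurable (by simp)

theorem isProb [MeasurableSpace G] [MeasurableSingletonClass G] :
    IsProbabilityMeasure (msr S) := by
  constructor
  have h := lintegral_msr S (fun _ => 1)
  rw [lintegral_one] at h
  rw [h]
  simp only [mul_one]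
  rw [← ENNReal.ofReal_sum_of_nonneg (fun z _ => (law_wt S).nn z)]
  have := (law_wt S).mass
  unfold ev at this
  simp only [mul_one] at this
  rw [show ∑ z ∈ (wt S).coeff.support, (wt S).coeff z = 1 from this]
  simp

theorem msr_apply [MeasurableSpace G] [MeasurableSingletonClass G] (A : Set G)
    (hA : MeasurableSet A) : msr S A =
      ∑ z ∈ (wt S).coeff.support, ENNReal.ofReal ((wt S).coeff z) * A.indicator 1 z := by
  rw [← lintegral_msr, lintegral_indicator_one hA]

/-- The support of the measure consists of involutions. -/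
theorem wt_supp (z : G) (hz : (wt S).coeff z ≠ 0) : z * z = 1 := by
  classical
  by_contra hne
  apply hz
  rw [coeff_eq_ev, ev_wt]
  have h1 : ev S.mA (fun w => if w = z then (1 : ℝ) else 0) = 0 := by
    unfold SGp.mA hh
    rw [ev_smul, ev_add, ev_one, ev_pt]
    rw [if_neg (fun h => hne (by rw [← h, mul_one])), if_neg (fun h => hne (by rw [← h]; exact S.a_sq))]
    norm_num
  have h2 : ev S.mV (fun w => if w = z then (1 : ℝ) else 0) = 0 := by
    rw [mV_eq_avg, ev_avg]
    have : ∀ x : Fin 4 → ZMod 2, ev (pt (S.vv x)) (fun w => if w = z then (1 : ℝ) else 0) = 0 := by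
      intro x
      rw [ev_pt, if_neg]
      intro h
      apply hne
      rw [← h, ← vv_add]
      have hxx : x + x = 0 := by
        funext i
        exact CharTwo.add_self_eq_zero _
      rw [hxx, vv_zero]
    simp only [this]
    unfold avg
    simp
  rw [h1, h2]; norm_num

theorem wt_a_pos : 0 < (wt S).coeff S.a := by
  classical
  rw [coeff_eq_ev, ev_wt]
  have h1 : 1 / 2 ≤ ev S.mA (fun w => if w = S.a then (1 : ℝ) else 0) := by
    unfold SGp.mA hh
    rw [ev_smul, ev_add, ev_one, ev_pt]
    rw [if_pos rfl]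
    split_ifs <;> norm_num
  have h2 : 0 ≤ ev S.mV (fun w => if w = S.a then (1 : ℝ) else 0) :=
    ev_nonneg _ (law_mV S).nn _ fun w _ => by split_ifs <;> norm_num
  linarith

theorem wt_e_pos (i : Fin 4) : 0 < (wt S).coeff (S.e i) := by
  classical
  rw [coeff_eq_ev, ev_wt]
  have h1 : 0 ≤ ev S.mA (fun w => if w = S.e i then (1 : ℝ) else 0) :=
    ev_nonneg _ (law_mA S).nn _ fun w _ => by split_ifs <;> norm_num
  have h2 : 0 < ev S.mV (fun w => if w = S.e i then (1 : ℝ) else 0) := by
    rw [mV_eq_avg, ev_avg]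
    unfold avg
    rw [smul_eq_mul]
    apply mul_pos
    · have : (0 : ℝ) < (Fintype.card (Fin 4 → ZMod 2) : ℝ) := by
        exact_mod_cast Fintype.card_pos
      positivity
    · refine Finset.sum_pos' (fun x _ => ?_) ⟨Pi.single i 1, Finset.mem_univ _, ?_⟩
      · rw [ev_pt]; split_ifs <;> norm_num
      · rw [ev_pt, vv_single, if_pos rfl]; norm_num
  linarith

theorem msr_symm [MeasurableSpace G] [MeasurableSingletonClass G] (hm : ∀ A : Set G, MeasurableSet A)
    (A : Set G) : msr S A = msr S A⁻¹ := by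
  classical
  rw [msr_apply S A (hm A), msr_apply S A⁻¹ (hm _)]
  refine Finset.sum_congr rfl fun z hz => ?_
  have hz' : (wt S).coeff z ≠ 0 := Finsupp.mem_support_iff.mp hz
  have hzz : z⁻¹ = z := inv_eq_of_mul_eq_one_left (wt_supp S z hz')
  congr 1
  unfold Set.indicator
  simp only [Set.mem_inv, hzz]

theorem msr_adapted [MeasurableSpace G] [MeasurableSingletonClass G]
    (hm : ∀ A : Set G, MeasurableSet A) (H : Subgroup G) (hH : H ≠ ⊤) :
    msr S (H : Set G) < 1 := by
  classical
  have hprob := isProb S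
  -- some point of the support is outside of H
  obtain ⟨z, hz, hzH⟩ : ∃ z, 0 < (wt S).coeff z ∧ z ∉ H := by
    by_contra hcon
    push Not at hcon
    apply hH
    rw [eq_top_iff, ← S.gen, Subgroup.closure_le]
    intro x hx
    rcases hx with rfl | ⟨i, rfl⟩
    · exact hcon _ (wt_a_pos S)
    · exact hcon _ (wt_e_pos S i)
  have hc : 0 < msr S ((H : Set G)ᶜ) := by
    rw [msr_apply S _ (hm _)]
    refine lt_of_lt_of_le ?_ (Finset.single_le_sum (f := fun z =>
      ENNReal.ofReal ((wt S).coeff z) * ((H : Set G)ᶜ).indicator 1 z) (fun _ _ => zero_le)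
      (Finsupp.mem_support_iff.mpr hz.ne'))
    have : ((H : Set G)ᶜ).indicator (1 : G → ENNReal) z = 1 :=
      Set.indicator_of_mem (by simpa using hzH) _
    show 0 < ENNReal.ofReal ((wt S).coeff z) * ((H : Set G)ᶜ).indicator 1 z
    rw [this, mul_one]
    exact ENNReal.ofReal_pos.mpr hz
  have hadd : msr S (H : Set G) + msr S ((H : Set G)ᶜ) = 1 := by
    rw [measure_add_measure_compl (hm _)]
    exact measure_univ
  have hfin : msr S (H : Set G) ≠ ⊤ := measure_ne_top _ _
  calc msr S (H : Set G) < msr S (H : Set G) + msr S ((H : Set G)ᶜ) :=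
        ENNReal.lt_add_right hfin hc.ne'
    _ = 1 := hadd

end weight

/-- The negative answer to Q2. -/
theorem result :
    ∃ (G : Type) (_ : Group G) (_ : TopologicalSpace G) (_ : IsTopologicalGroup G)
      (_ : LocallyCompactSpace G) (_ : T2Space G) (_ : MeasurableSpace G) (_ : BorelSpace G)
      (K : Set G) (m μ : Measure G),
      DiscreteTopology G ∧ IsGenSet K ∧ m.IsHaarMeasure ∧ m K = 1 ∧ ¬ PolynomialGrowth K m ∧
      IsProbabilityMeasure μ ∧ (∃ F : Set G, F.Finite ∧ μ Fᶜ = 0) ∧ Courteous K μ ∧ ExpTail K μ ∧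
      ∀ f : G → ℝ, Harmonic μ f → (∃ b : ℝ, ∀ x, b ≤ f x) → LinearGrowth K f →
        ∃ c : ℝ, ∀ x, f x = c := by
  obtain ⟨G, i, ⟨S⟩⟩ := exists_SGp
  let _ : TopologicalSpace G := ⊥
  have _ : DiscreteTopology G := ⟨rfl⟩
  let _ : MeasurableSpace G := ⊤
  have _ : BorelSpace G := ⟨by
    rw [borel_eq_top_of_discrete]⟩
  have _ : MeasurableSingletonClass G := ⟨fun _ => trivial⟩
  have hm : ∀ A : Set G, MeasurableSet A := fun _ => trivial
  have hmf : ∀ f : G → ℝ, Measurable f := fun _ => measurable_from_top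
  have hgen : IsGenSet S.T := by
    refine ⟨(T_finite S).isCompact, ?_, T_gen S⟩
    ext x
    rw [Set.mem_inv]
    exact ⟨fun h => by simpa using inv_mem_T S h, fun h => inv_mem_T S h⟩
  let K₀ : TopologicalSpace.PositiveCompacts G :=
    { carrier := S.T
      isCompact' := (T_finite S).isCompact
      interior_nonempty' := by
        rw [(isOpen_discrete S.T).interior_eq]
        exact ⟨1, one_mem_T S⟩ }
  have hself : Measure.haarMeasure K₀ S.T = 1 := Measure.haarMeasure_self (K₀ := K₀)
  have hcard : ∀ A : Set G, A.Finite →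
      Measure.haarMeasure K₀ A = (A.ncard : ENNReal) * Measure.haarMeasure K₀ {1} := by
    intro A hA
    classical
    have hU : A = ⋃ x ∈ hA.toFinset, {x} := by
      ext y; simp
    have h1 : Measure.haarMeasure K₀ (⋃ x ∈ hA.toFinset, {x}) =
        ∑ x ∈ hA.toFinset, Measure.haarMeasure K₀ {x} :=
      measure_biUnion_finset (fun x _ y _ hxy => Set.disjoint_singleton.mpr hxy) fun _ _ => hm _
    rw [← hU] at h1
    rw [h1]
    simp only [Measure.haar_singleton, Finset.sum_const, nsmul_eq_mul]
    rw [Set.ncard_eq_toFinset_card A hA]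
  have hTpow : ∀ n, (S.T ^ n).Finite := fun n => by
    induction n with
    | zero => rw [pow_zero]; exact Set.finite_one
    | succ n ih => rw [pow_succ]; exact ih.mul (T_finite S)
  refine ⟨G, i, inferInstance, inferInstance, inferInstance, inferInstance, inferInstance,
    inferInstance, S.T, Measure.haarMeasure K₀, msr S, inferInstance, hgen, inferInstance, hself,
    ?_, isProb S, ⟨(wt S).coeff.support, Finset.finite_toSet _, ?_⟩, ⟨fun H _ hH => msr_adapted S hm H hH, fun A _ => msr_symm S hm A, ?_⟩, ?_, ?_⟩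
  · rintro ⟨C, k, hC, hk, h⟩
    apply grow S
    refine ⟨C * S.T.ncard, k, fun n hn => ?_⟩
    have h1 := h n hn
    rw [hcard _ (hTpow n)] at h1
    rw [hcard _ (T_finite S)] at hself
    have hT : (S.T.ncard : ENNReal) ≠ 0 := by
      intro h0
      rw [h0, zero_mul] at hself
      exact zero_ne_one hself
    have h2 : ((S.T ^ n).ncard : ENNReal) ≤ ENNReal.ofReal (C * (n : ℝ) ^ k) * S.T.ncard := by
      calc ((S.T ^ n).ncard : ENNReal)
          = (S.T ^ n).ncard * ((S.T.ncard : ENNReal) * Measure.haarMeasure K₀ {1}) := by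
            rw [hself, mul_one]
        _ = ((S.T ^ n).ncard * Measure.haarMeasure K₀ {1}) * (S.T.ncard : ENNReal) := by ring
        _ ≤ _ := mul_le_mul_left h1 _
    have h3 : ((S.T ^ n).ncard : ENNReal) ≤ ENNReal.ofReal (C * (n : ℝ) ^ k * S.T.ncard) := by
      rw [ENNReal.ofReal_mul (by positivity), ENNReal.ofReal_natCast]
      exact h2
    rw [← ENNReal.ofReal_natCast, ENNReal.ofReal_le_ofReal_iff (by positivity)] at h3
    calc ((S.T ^ n).ncard : ℝ) ≤ C * (n : ℝ) ^ k * S.T.ncard := h3
      _ = C * S.T.ncard * (n : ℝ) ^ k := by ring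
  · rw [msr_apply S _ (hm _)]
    refine Finset.sum_eq_zero fun z hz => ?_
    rw [Set.indicator_of_notMem (by simpa using hz), mul_zero]
  · rw [lintegral_msr]
    refine ENNReal.sum_lt_top.mpr fun z _ => ?_
    exact ENNReal.mul_lt_top ENNReal.ofReal_lt_top
      (ENNReal.pow_lt_top (ENNReal.natCast_lt_top _))
  · refine ⟨1, one_pos, ?_⟩
    rw [lintegral_msr]
    refine ENNReal.sum_lt_top.mpr fun z _ => ?_
    exact ENNReal.mul_lt_top ENNReal.ofReal_lt_top ENNReal.ofReal_lt_top
  · intro f hf hb hlin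
    refine ⟨f 1, main_const (S := S) ⟨?_, ?_, hb⟩⟩
    · intro x
      have h := hf.2 x
      rw [integral_msr S _ (hmf _), ev_wt] at h
      exact h
    · obtain ⟨c, _, hc⟩ := hlin
      exact ⟨c, hc⟩

end Pool.Agent.Results.MP_e6f660_al.NoLinearGrowth
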