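import Pool.Agent.MP_e6f660_al.Len

/-!
# Positive harmonic functions of linear growth from transient Schreier graphs

`G` is generated by a finite symmetric set `K` and acts transitively on `Y`, so that `Y` is the set
of cosets of a subgroup of `G`. The hypotheses on `Y` are that one finite symmetric walk on it is
transient, and that it carries a bounded function `w` which has no limit at infinity and
whose gradient, weighted with the distance to `o`, is summable. The indicator function of
any infinite set with infinite complement and finite boundary is such a function `w`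
(`Pool.Agent.SchEnds.ends_hyp`), so the theorem applies to all transient Schreier graphs with
at least two ends.
-/

namespace Pool.Agent.Results.MP_e6f660_al.SchreierEnds

open Pool.Agent.SchEnds Filter Topology

theorem result {G Y : Type*} [Group G] [MulAction G Y] [MulAction.IsPretransitive G Y]
    (K : Set G) (hKf : K.Finite) (hKs : ∀ s ∈ K, s⁻¹ ∈ K) (hK : Subgroup.closure K = ⊤)
    (o : Y) (S : Finset G) (hne : S.Nonempty) (hS : ∀ s ∈ S, s⁻¹ ∈ S)
    (htr : Summable fun n => walkProb S o n o)
    (w : Y → ℝ) (M : ℝ) (hM : ∀ y, |w y| ≤ M) (hnc : ¬ ∃ c, Tendsto w cofinite (𝓝 c))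
    (hw : ∀ k ∈ K, Summable fun y => (1 + (sdist K o y : ℝ)) * |w y - w (k • y)|)
    (μ : G → ℝ) (hμ0 : ∀ s, 0 ≤ μ s) (hμ1 : HasSum μ 1) (hμs : ∀ s, μ s⁻¹ = μ s)
    (had : Subgroup.closure {s | 0 < μ s} = ⊤)
    (hmom : Summable fun s => μ s * (wlen K s : ℝ) ^ 2) :
    ∃ f : G → ℝ, (∀ x, 0 < f x) ∧ (∀ x, HasSum (fun s => μ s * f (x * s)) (f x)) ∧
      (∃ x y, f x ≠ f y) ∧ ∃ c : ℝ, 0 < c ∧ ∀ x, |f x| ≤ c * (1 + wlen K x) :=
  have hμ : SymmProb μ := ⟨hμ0, hμ1, hμs⟩
  main_cap hμ had (cap_of_transient hμ had S hne hS o htr) hKf hKs hK hmom o w M hM hnc hw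

end Pool.Agent.Results.MP_e6f660_al.SchreierEnds
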